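import Pool.Agent.H.MP_4fd693_gt.Defs

set_option autoImplicit false

namespace Pool.Agent.H.MP_4fd693_gt

open Set Topology Filter

section
variable {X : Type} (S : X → ℕ → X → Prop)

inductive In : X → ℕ → X → Prop
  | self (a m) : In a m a
  | step (a m i y b) : S a i y → m ≤ i → In y (i + 1) b → In a m b

def Kn (a : X) (m : ℕ) : Set X := {b | In S a m b}

theorem Kn_mono (a : X) {m m' : ℕ} (h : m ≤ m') : Kn S a m' ⊆ Kn S a m := by
  intro b hb
  cases hb with
  | self => exact In.self _ _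
  | step _ _ i y _ h1 h2 h3 => exact In.step _ _ i y _ h1 (h.trans h2) h3

def top : TopologicalSpace X where
  IsOpen U := ∀ a ∈ U, ∃ m, Kn S a m ⊆ U
  isOpen_univ := fun _ _ => ⟨0, subset_univ _⟩
  isOpen_inter := fun U V hU hV a ha => by
    obtain ⟨m, h⟩ := hU a ha.1
    obtain ⟨m', h'⟩ := hV a ha.2
    exact ⟨max m m', subset_inter ((Kn_mono S a (le_max_left _ _)).trans h)
      ((Kn_mono S a (le_max_right _ _)).trans h')⟩
  isOpen_sUnion := fun s hs a ⟨U, hU, ha⟩ => by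
    obtain ⟨m, h⟩ := hs U hU a ha
    exact ⟨m, h.trans (subset_sUnion_of_mem hU)⟩

theorem Kn_open (a : X) (m : ℕ) : IsOpen[top S] (Kn S a m) := by
  intro b hb
  change In S a m b at hb
  induction hb with
  | self a m => exact ⟨m, Subset.rfl⟩
  | step a m i y b h1 h2 _ ih =>
    obtain ⟨k, hk⟩ := ih
    exact ⟨k, fun c hc => In.step a m i y c h1 h2 (hk hc)⟩

theorem Kn_sub (a : X) (m k : ℕ) :
    Kn S a m ⊆ Kn S a k ∪ ⋃ i ∈ Iio k, ⋃ y ∈ {y | S a i y}, Kn S y (i + 1) ∩ Kn S a m := by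
  intro b hb
  have hb' := hb
  cases hb with
  | self => exact Or.inl (In.self _ _)
  | step _ _ i y _ h1 h2 h3 =>
    by_cases c : k ≤ i
    · exact Or.inl (In.step _ _ i y _ h1 c h3)
    · exact Or.inr (mem_biUnion (not_le.1 c) (mem_biUnion h1 ⟨h3, hb'⟩))

theorem Kn_eq (a : X) (m : ℕ) :
    Kn S a m = insert a (⋃ i ∈ Ici m, ⋃ y ∈ {y | S a i y}, Kn S y (i + 1)) := by
  ext b
  constructor
  · intro hb
    cases hb with
    | self => exact Or.inl rfl
    | step _ _ i y _ h1 h2 h3 => exact Or.inr (mem_biUnion h2 (mem_biUnion h1 h3))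
  · rintro (rfl | h)
    · exact In.self _ _
    · simp only [mem_iUnion] at h
      obtain ⟨i, h1, y, h2, h3⟩ := h
      exact In.step _ _ i y _ h2 h1 h3

variable {S}

theorem Kn_count {r : X → X → Prop} (wf : WellFounded r) (h1 : ∀ a i y, S a i y → r y a)
    (h2 : ∀ a i, {y | S a i y}.Finite) (a : X) : ∀ m, (Kn S a m).Countable := by
  induction a using wf.induction with
  | _ a ih =>
    intro m
    rw [Kn_eq]
    exact ((to_countable _).biUnion fun i _ => (h2 a i).countable.biUnion fun y hy =>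
      ih y (h1 a i y hy) _).insert a

theorem Kn_compact {r : X → X → Prop} (wf : WellFounded r) (h1 : ∀ a i y, S a i y → r y a)
    (h2 : ∀ a i, {y | S a i y}.Finite) (a : X) : ∀ m, @IsCompact X (top S) (Kn S a m) := by
  letI := top S
  induction a using wf.induction with
  | _ a ih =>
    intro m
    rw [isCompact_iff_ultrafilter_le_nhds']
    intro f hf
    by_cases c : ∀ k, Kn S a k ∈ f
    · refine ⟨a, In.self _ _, fun U hU => ?_⟩
      obtain ⟨V, V1, V2, V3⟩ := mem_nhds_iff.1 hU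
      obtain ⟨k, hk⟩ := V2 a V3
      exact mem_of_superset (c k) (hk.trans V1)
    · push Not at c
      obtain ⟨k, hk⟩ := c
      have h3 : (⋃ i ∈ Ici m ∩ Iio k, ⋃ y ∈ {y | S a i y}, Kn S y (i + 1)) ∈ f := by
        filter_upwards [hf, Ultrafilter.compl_mem_iff_notMem.2 hk] with b hb hb'
        cases hb with
        | self => exact absurd (In.self _ _) hb'
        | step _ _ i y _ g1 g2 g3 =>
          by_cases c : k ≤ i
          · exact absurd (In.step _ _ i y _ g1 c g3) hb'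
          · exact mem_biUnion (x := i) ⟨g2, not_le.1 c⟩ (mem_biUnion g1 g3)
      have h4 : IsCompact (⋃ i ∈ Ici m ∩ Iio k, ⋃ y ∈ {y | S a i y}, Kn S y (i + 1)) :=
        ((finite_Iio k).inter_of_right _).isCompact_biUnion fun i _ =>
          (h2 a i).isCompact_biUnion fun y hy => ih y (h1 a i y hy) _
      obtain ⟨b, b1, b2⟩ := isCompact_iff_ultrafilter_le_nhds'.1 h4 f h3
      simp only [mem_iUnion] at b1
      obtain ⟨i, i1, y, y1, y2⟩ := b1
      exact ⟨b, In.step _ _ i y _ y1 i1.1 y2, b2⟩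

theorem Kn_dist {C : Type} [MetricSpace C] (x : X → C)
    (h : ∀ a i y, S a i y → dist (x y) (x a) ≤ (1 / 2) ^ (i + 1)) {a b : X} {m : ℕ}
    (hb : In S a m b) : dist (x b) (x a) ≤ (1 / 2) ^ m := by
  induction hb with
  | self => simp
  | step a m i y b h1 h2 _ ih =>
    have := h a i y h1
    have := dist_triangle (x b) (x y) (x a)
    have h3 : (1 / 2 : ℝ) ^ i ≤ (1 / 2) ^ m := pow_le_pow_of_le_one (by norm_num) (by norm_num) h2
    rw [pow_succ] at *
    linarith

theorem x_cont {C : Type} [MetricSpace C] (x : X → C)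
    (h : ∀ a i y, S a i y → dist (x y) (x a) ≤ (1 / 2) ^ (i + 1)) :
    @Continuous X C (top S) _ x := by
  letI := top S
  refine ⟨fun U hU a ha => ?_⟩
  obtain ⟨ε, h1, h2⟩ := Metric.isOpen_iff.1 hU _ ha
  obtain ⟨m, hm⟩ := exists_pow_lt_of_lt_one h1 (show (1 / 2 : ℝ) < 1 by norm_num)
  exact ⟨m, fun b hb => h2 ((Kn_dist x h hb).trans_lt hm)⟩

end

theorem compactify {X C : Type} [TopologicalSpace X] [MetricSpace C] [CompactSpace C] (x : X → C)
    (hc : Continuous x) (hi : Function.Injective x)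
    (hK : ∀ a : X, ∃ D : Set X, a ∈ D ∧ IsOpen D ∧ IsCompact D) :
    ∃ (K : Type) (_ : TopologicalSpace K), CompactSpace K ∧ T2Space K ∧ FirstCountableTopology K ∧
      WeaklyFirstCountable K ∧ ∃ j : X → K, IsEmbedding j := by
  haveI : T2Space X := .of_injective_continuous hi hc
  haveI : WeaklyLocallyCompactSpace X := ⟨fun a => by
    obtain ⟨D, h1, h2, h3⟩ := hK a
    exact ⟨D, h3, h2.mem_nhds h1⟩⟩
  let K : Set (OnePoint X × C) := {z | ∀ p : X, z.1 = p → x p = z.2}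
  have hcl : IsClosed K := by
    have : Kᶜ = Prod.map (fun p : X => (p : OnePoint X)) id '' {z : X × C | x z.1 ≠ z.2} := by
      ext ⟨a, r⟩
      simp only [K, mem_compl_iff, mem_setOf_eq, not_forall, mem_image, Prod.exists, Prod.map,
        id, Prod.mk.injEq]
      constructor
      · rintro ⟨p, h1, h2⟩; exact ⟨p, r, h2, h1.symm, rfl⟩
      · rintro ⟨p, r', h1, h2, rfl⟩; exact ⟨p, h2.symm, h1⟩
    rw [← isOpen_compl_iff, this]
    exact (OnePoint.isOpenEmbedding_coe.isOpenMap.prodMap IsOpenMap.id) _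
      (isOpen_ne_fun (hc.comp continuous_fst) continuous_snd)
  haveI : CompactSpace K := isCompact_iff_compactSpace.1 hcl.isCompact
  have sep : ∀ z : K, ∃ D : Set K, IsClopen D ∧ z ∈ D ∧ ∀ w ∈ D, w.1.2 = z.1.2 → w = z := by
    have cl : ∀ a : X, ∃ D : Set K, IsClopen D ∧ (∀ w : K, w.1.1 = a → w ∈ D) ∧
        ∀ w ∈ D, ∃ q : X, w.1.1 = q := by
      intro a
      obtain ⟨D, h1, h2, h3⟩ := hK a
      have : IsClopen ((fun p : X => (p : OnePoint X)) '' D) :=
        ⟨(h3.image OnePoint.continuous_coe).isClosed, OnePoint.isOpenEmbedding_coe.isOpenMap _ h2⟩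
      exact ⟨_, this.preimage (continuous_fst.comp continuous_subtype_val),
        fun w hw => ⟨a, h1, hw.symm⟩, fun w ⟨q, _, hq⟩ => ⟨q, hq.symm⟩⟩
    rintro ⟨⟨a, r⟩, hz⟩
    induction a using OnePoint.rec with
    | infty =>
      by_cases c : ∃ p, x p = r
      · obtain ⟨p, rfl⟩ := c
        obtain ⟨D, h1, h2, h3⟩ := cl p
        refine ⟨Dᶜ, h1.compl, fun h => by obtain ⟨q, hq⟩ := h3 _ h; simp at hq, ?_⟩
        rintro ⟨⟨b, s⟩, hw⟩ h4 h5
        induction b using OnePoint.rec with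
        | infty => exact Subtype.ext (Prod.ext rfl h5)
        | coe q =>
          obtain rfl : q = p := hi ((hw q rfl).trans h5)
          exact absurd (h2 _ rfl) h4
      · refine ⟨univ, isClopen_univ, trivial, ?_⟩
        rintro ⟨⟨b, s⟩, hw⟩ - h5
        induction b using OnePoint.rec with
        | infty => exact Subtype.ext (Prod.ext rfl h5)
        | coe q => exact absurd ⟨q, (hw q rfl).trans h5⟩ c
    | coe p =>
      obtain ⟨D, h1, h2, h3⟩ := cl p
      refine ⟨D, h1, h2 _ rfl, fun w h4 h5 => ?_⟩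
      obtain ⟨q, hq⟩ := h3 w h4
      obtain rfl : q = p := hi (((w.2 q hq).trans h5).trans (hz p rfl).symm)
      exact Subtype.ext (Prod.ext hq h5)
  choose D D1 D2 D3 using sep
  let B : K → ℕ → Set K := fun z n => D z ∩ {w | dist w.1.2 z.1.2 ≤ (1 / 2) ^ n}
  have cd : ∀ z : K, Continuous fun w : K => dist w.1.2 z.1.2 := fun z => by fun_prop
  have B1 : ∀ z n, B z n ∈ 𝓝 z := fun z n => inter_mem ((D1 z).2.mem_nhds (D2 z))
    (mem_of_superset ((isOpen_lt (cd z) continuous_const).mem_nhds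
      (show dist z.1.2 z.1.2 < (1 / 2 : ℝ) ^ n by simp)) fun w hw => by
        simp only [mem_setOf_eq] at hw ⊢; exact hw.le)
  have B2 : ∀ z n, B z (n + 1) ⊆ B z n := fun z n w hw => ⟨hw.1, by
    have h1 : dist w.1.2 z.1.2 ≤ (1 / 2) ^ (n + 1) := hw.2
    have h2 : (1 / 2 : ℝ) ^ (n + 1) ≤ (1 / 2) ^ n :=
      pow_le_pow_of_le_one (by norm_num) (by norm_num) (Nat.le_succ n)
    exact h1.trans h2⟩
  have B3 : ∀ z U, U ∈ 𝓝 z → ∃ n, B z n ⊆ U := by
    intro z U hU
    refine exists_subset_nhds_of_compactSpace (antitone_nat_of_succ_le (B2 z)).directed_ge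
      (fun n => (D1 z).1.inter (isClosed_le (cd z) continuous_const)) fun w hw => ?_
    rw [mem_iInter] at hw
    have : w = z := D3 z w (hw 0).1 (by
      by_contra h
      obtain ⟨m, hm⟩ := exists_pow_lt_of_lt_one (dist_pos.2 h) (show (1 / 2 : ℝ) < 1 by norm_num)
      exact absurd (hw m).2 (not_le.2 hm))
    rwa [this]
  refine ⟨K, inferInstance, inferInstance, inferInstance, ⟨fun z => ?_⟩,
    ⟨B, fun z n => mem_of_mem_nhds (B1 z n), B2, fun U => ⟨fun h z hz => B3 z U (h.mem_nhds hz),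
      fun h => isOpen_iff_mem_nhds.2 fun z hz => ?_⟩⟩,
    fun p => ⟨((p : OnePoint X), x p), fun q hq => by rw [OnePoint.coe_injective hq]⟩, ?_⟩
  · have : (𝓝 z).HasBasis (fun _ : ℕ => True) (B z) := ⟨fun U => ⟨fun h => by
      simpa using B3 z U h, fun ⟨n, _, h⟩ => mem_of_superset (B1 z n) h⟩⟩
    exact this.isCountablyGenerated
  · obtain ⟨n, hn⟩ := h z hz
    exact mem_of_superset (B1 z n) hn
  · exact IsEmbedding.of_comp ((OnePoint.continuous_coe.prodMk hc).subtype_mk _)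
      (continuous_fst.comp continuous_subtype_val) OnePoint.isOpenEmbedding_coe.isEmbedding

theorem build {X C : Type} [Nonempty X] [MetricSpace C] [CompactSpace C] (x : X → C)
    (hi : Function.Injective x) {r : X → X → Prop} (wf : WellFounded r) (e : X → ℕ → ℕ → X)
    (he : ∀ (F : ℕ → ℕ → X) (P : Set X), P.Countable → ∃ a, a ∉ P ∧ e a = F ∧ ∀ n j, r (F n j) a) :
    ∃ (K : Type) (_ : TopologicalSpace K), CompactSpace K ∧ T2Space K ∧ FirstCountableTopology K ∧
      WeaklyFirstCountable K ∧ ∃ Z : Set K, ¬ WeaklyThetaRefinable Z := by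
  let cond : X → ℕ → X → Prop := fun a i y =>
    (∃ j, y = e a (Nat.unpair i).1 j) ∧ r y a ∧ dist (x y) (x a) ≤ (1 / 2) ^ (i + 1)
  let S : X → ℕ → X → Prop := fun a i y => y = Classical.epsilon (cond a i) ∧ cond a i y
  have h1 : ∀ a i y, S a i y → r y a := fun a i y h => h.2.2.1
  have h2 : ∀ a i, {y | S a i y}.Finite := fun a i =>
    (finite_singleton _).subset fun y hy => hy.1
  have h3 : ∀ a i y, S a i y → dist (x y) (x a) ≤ (1 / 2) ^ (i + 1) := fun a i y h => h.2.2.2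
  letI := top S
  obtain ⟨K, tK, k1, k2, k3, k4, j, hj⟩ := compactify x (x_cont x h3) hi fun a =>
    ⟨Kn S a 0, In.self _ _, Kn_open S a 0, Kn_compact wf h1 h2 a 0⟩
  refine ⟨K, tK, k1, k2, k3, k4, range j, fun h => ?_⟩
  let φ := hj.toHomeomorph
  obtain ⟨𝒱, v1, v2⟩ := h {U | IsOpen U ∧ U.Countable} (fun U hU => hU.1) (by
    rw [eq_univ_iff_forall]
    intro z
    exact ⟨φ '' Kn S (φ.symm z) 0, ⟨φ.isOpenMap _ (Kn_open S _ 0),
      (Kn_count wf h1 h2 _ 0).image _⟩, φ.symm z, In.self _ _, φ.apply_symm_apply z⟩)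
  let Y : ℕ → Set X := fun n => {a | {V | V ∈ 𝒱 n ∧ φ a ∈ V}.Finite}
  have hF : ∀ n, ∃ F : ℕ → X, ∀ a ∈ Y n, (∀ j, F j ∈ Y n) ∧
      ∀ ε > 0, ∃ j, dist (x (F j)) (x a) ≤ ε := by
    intro n
    rcases (Y n).eq_empty_or_nonempty with c | c
    · exact ⟨fun _ => Classical.arbitrary X, by simp [c]⟩
    · haveI : Nonempty (x '' Y n) := (c.image x).to_subtype
      have hd := TopologicalSpace.denseRange_denseSeq (x '' Y n)
      choose F F1 F2 using fun j => (TopologicalSpace.denseSeq (x '' Y n) j).2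
      refine ⟨F, fun a ha => ⟨F1, fun ε hε => ?_⟩⟩
      obtain ⟨j, hj⟩ := hd.exists_dist_lt ⟨x a, a, ha, rfl⟩ hε
      refine ⟨j, ?_⟩
      rw [F2, dist_comm]
      exact hj.le
  choose F hF using hF
  obtain ⟨a, a1, a2, a3⟩ := he F (⋃ n, ⋃ j, ⋃ (_ : F n j ∈ Y n),
      ⋃ V ∈ {V | V ∈ 𝒱 n ∧ φ (F n j) ∈ V}, φ ⁻¹' V)
    (countable_iUnion fun n => countable_iUnion fun j => countable_iUnion fun hY =>
      (Set.Finite.countable hY).biUnion fun V hV => by
        obtain ⟨-, U, U1, U2⟩ := v1 n V hV.1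
        exact (U1.2.mono U2).preimage φ.injective)
  obtain ⟨n, ⟨V, V1, V2⟩, n2⟩ := v2 (φ a)
  obtain ⟨m, hm⟩ := (φ.continuous.isOpen_preimage V (v1 n V V1).1) a V2
  obtain ⟨k, k2⟩ := (hF n a n2).2 ((1 / 2) ^ (Nat.pair n m + 1)) (by positivity)
  have hc : cond a (Nat.pair n m) (Classical.epsilon (cond a (Nat.pair n m))) :=
    Classical.epsilon_spec ⟨F n k, ⟨k, by simp [a2]⟩, a3 n k, k2⟩
  have hS : S a (Nat.pair n m) _ := ⟨rfl, hc⟩
  obtain ⟨k', hk'⟩ := hc.1
  have h5 := hm (In.step a m _ _ _ hS (Nat.right_le_pair n m) (In.self _ _))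
  rw [hk', a2, Nat.unpair_pair] at h5
  refine a1 ?_
  simp only [mem_iUnion]
  exact ⟨n, k', (hF n a n2).1 k', V, ⟨V1, h5⟩, V2⟩

end Pool.Agent.H.MP_4fd693_gt
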