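import Mathlib

set_option autoImplicit false

namespace Pool.Agent.H.MP_4fd693_gt

/-- weakly first countable in the sense of Arhangel'skii -/
def WeaklyFirstCountable (X : Type) [TopologicalSpace X] : Prop :=
  ∃ B : X → ℕ → Set X, (∀ x n, x ∈ B x n) ∧ (∀ x n, B x (n + 1) ⊆ B x n) ∧
    ∀ U : Set X, IsOpen U ↔ ∀ x ∈ U, ∃ n, B x n ⊆ U

/-- weakly θ-refinable -/
def WeaklyThetaRefinable (X : Type) [TopologicalSpace X] : Prop :=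
  ∀ 𝒰 : Set (Set X), (∀ U ∈ 𝒰, IsOpen U) → ⋃₀ 𝒰 = Set.univ →
    ∃ 𝒱 : ℕ → Set (Set X), (∀ n, ∀ V ∈ 𝒱 n, IsOpen V ∧ ∃ U ∈ 𝒰, V ⊆ U) ∧
      ∀ x, ∃ n, {V | V ∈ 𝒱 n ∧ x ∈ V}.Nonempty ∧ {V | V ∈ 𝒱 n ∧ x ∈ V}.Finite

end Pool.Agent.H.MP_4fd693_gt
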